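import Pool.Agent.Lib.MP_acafa7_al.F.IfaceG
import Pool.Agent.Lib.MP_acafa7_al.MS.H09.Hair
import Pool.Agent.Lib.MP_acafa7_al.MS.H23.DelM

/-! Module QHAIR: removal of a hair of a metric disc. -/

namespace MSG.F64

open Classical MSG.H23

/-- a map without labels as a labelled map over the integers -/
def toL {D : Type} (M : DMap D) : LMap ℤ D (Equiv.addRight (1 : ℤ)) where
  toDMap := M
  f := fun _ => 0
  γ := fun _ => 0
  h := fun _ => 0
  γι := fun _ => by simp
  tgt := fun _ => by simp

theorem pow_add_right (n : ℤ) : ∀ x : ℤ, ((Equiv.addRight (1 : ℤ) : Equiv.Perm ℤ) ^ n) x = x + n := by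
  induction n using Int.induction_on with
  | zero => intro x; simp
  | succ k ih =>
    intro x
    rw [zpow_add_one, Equiv.Perm.mul_apply, ih]
    simp only [Equiv.coe_addRight]
    ring
  | pred k ih =>
    intro x
    rw [zpow_sub_one, Equiv.Perm.mul_apply, ih]
    have : (Equiv.addRight (1 : ℤ) : Equiv.Perm ℤ)⁻¹ x = x - 1 := by
      rw [Equiv.Perm.inv_eq_iff_eq]
      simp
    rw [this]
    ring

theorem sum_map_congr {D D' : Type} (q : D' → D) (ℓ : D → ℝ) (l : List D') :
    (l.map (fun x => ℓ (q x))).sum = ((l.map q).map ℓ).sum := by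
  rw [List.map_map]; rfl

theorem qhair : QHairStatement := by
  intro D _ M R ℓ o hMD hMk hio hoi
  have hoR := hMk.mem
  have hface := hMD.face
  -- facts about `o`
  have hoo : M.φ o ≠ o := hMk.ne
  have hne : M.ι o ≠ o := M.ne o
  have hιR : M.ι o ∈ R := face_mem' hface (by rw [hio]; exact hoR)
  have hcls : ∀ x, M.SameV o x → x = o := by
    intro x hx
    have h := hx (fun y => y = o) (by
      intro d
      constructor
      · intro h
        have h1 : d = M.ι o := M.φ.injective (h.trans hio.symm)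
        rw [h1, M.ιι]
      · intro h
        have h1 : d = M.ι o := by rw [← h, M.ιι]
        rw [h1, hio])
    exact h.1 rfl
  -- rotation of the face
  obtain ⟨rest, hrot⟩ : ∃ rest, (M.ι o :: o :: rest).IsRotated R := by
    obtain ⟨l1, l2, hl⟩ := List.append_of_mem hιR
    have hr : (M.ι o :: (l2 ++ l1)).IsRotated R := by
      rw [hl]
      have := List.isRotated_append (l := M.ι o :: l2) (l' := l1)
      simpa using this
    have hf : M.IsFace (M.ι o :: (l2 ++ l1)) := face_isRot hface hr.symm
    rcases hc : l2 ++ l1 with _ | ⟨o', rest⟩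
    · rw [hc] at hf
      exfalso
      have h3 := hf.2.2
      simp only [List.map_cons, List.map_nil, List.rotate_singleton, List.cons.injEq,
        and_true] at h3
      rw [hio] at h3
      exact hne h3.symm
    · rw [hc] at hf hr
      have h := (face_eq hf).1
      rw [hio] at h
      subst h
      exact ⟨rest, hr⟩
  have hface' : M.IsFace (M.ι o :: o :: rest) := face_isRot hface hrot.symm
  have hmemR : ∀ x, x ∈ R ↔ x = M.ι o ∨ x = o ∨ x ∈ rest := by
    intro x
    rw [← hrot.mem_iff]
    simp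
  have hnd := hface'.2.1
  have hιrest : M.ι o ∉ rest := by
    intro h
    rw [List.nodup_cons] at hnd
    exact hnd.1 (by simp [h])
  have horest : o ∉ rest := by
    intro h
    rw [List.nodup_cons, List.nodup_cons] at hnd
    exact hnd.2.1 h
  have hrnd : rest.Nodup := by
    rw [List.nodup_cons, List.nodup_cons] at hnd
    exact hnd.2.2
  have h5 := (face_eq hface').2
  rw [List.map_cons] at h5
  obtain ⟨r1, rs, hrest⟩ : ∃ r1 rs, rest = r1 :: rs := by
    cases hc : rest with
    | nil =>
      exfalso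
      rw [hc] at h5
      simp only [List.map_nil, List.nil_append, List.cons.injEq, and_true] at h5
      exact hoi h5
    | cons r1 rs => exact ⟨r1, rs, rfl⟩
  have hφo : M.φ o = r1 := by
    rw [hrest] at h5
    simp only [List.cons_append, List.cons.injEq] at h5
    exact h5.1
  have hmapφ : rest.map M.φ = rs ++ [M.ι o] := by
    rw [hrest] at h5 ⊢
    simp only [List.cons_append, List.cons.injEq] at h5
    exact h5.2
  -- remove the hair
  obtain ⟨D', fD', M', q, qinj, qrng, hqφ, hqι, -, -, -, hsame, hplanar⟩ :=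
    MSG.H09.hair ℤ D (Equiv.addRight (1 : ℤ)) (by
      intro x n h
      rw [pow_add_right] at h
      omega) (toL M) (M.ι o) (by change M.φ (M.ι o) = M.ι (M.ι o); rw [hio, M.ιι]) (by
      change M.φ (M.ι (M.ι o)) ≠ M.ι o; rw [M.ιι]; exact hoi)
  change ∀ x, (∃ x', q x' = x) ↔ (x ≠ M.ι o ∧ x ≠ M.ι (M.ι o)) at qrng
  change ∀ x, q (M'.φ x) = if M.φ (q x) = M.ι o then M.φ (M.ι (M.ι o)) else M.φ (q x) at hqφ
  change ∀ x, q (M'.ι x) = M.ι (q x) at hqι
  change ∀ x y, M'.SameV x y ↔ M.SameV (q x) (q y) at hsame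
  rw [M.ιι] at qrng hqφ
  have hqo : ∀ x, q x ≠ M.ι o ∧ q x ≠ o := fun x => (qrng _).1 ⟨x, rfl⟩
  -- the new face
  obtain ⟨R', hR'⟩ := list_lift q rest (fun x hx => (qrng x).2
    ⟨fun h => hιrest (h ▸ hx), fun h => horest (h ▸ hx)⟩)
  have hRmem : ∀ x, x ∈ R' ↔ q x ∈ R := by
    intro x
    rw [hmemR]
    constructor
    · intro h
      right; right
      rw [← hR']
      exact List.mem_map_of_mem h
    · rintro (h | h | h)
      · exact absurd h (hqo x).1
      · exact absurd h (hqo x).2
      · rw [← hR'] at h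
        obtain ⟨y, hy, hyx⟩ := List.mem_map.1 h
        rwa [← qinj hyx]
  have hout : ∀ x, x ∉ R' → q (M'.φ x) = M.φ (q x) := by
    intro x hx
    rw [hqφ, if_neg]
    intro h
    apply hx
    rw [hRmem]
    exact face_mem' hface (by rw [h]; exact hιR)
  have hfaceR : M'.IsFace R' := by
    refine ⟨?_, ?_, ?_⟩
    · rintro rfl
      rw [hrest] at hR'
      simp at hR'
    · apply List.Nodup.of_map q
      rw [hR']; exact hrnd
    · apply List.map_injective_iff.2 qinj
      rw [List.map_map, List.map_rotate, hR']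
      have h6 : R'.map (q ∘ M'.φ) = (rest.map M.φ).map (fun y => if y = M.ι o then r1 else y) := by
        rw [← hR', List.map_map, List.map_map]
        apply List.map_congr_left
        intro x _
        change q (M'.φ x) = if M.φ (q x) = M.ι o then r1 else M.φ (q x)
        rw [hqφ, hφo]
      rw [h6, hmapφ, List.map_append, hrest]
      simp only [List.map_cons, List.map_nil, if_true, List.rotate_cons_succ, List.rotate_zero]
      congr 1
      rw [List.map_congr_left (g := id)]
      · simp
      · intro y hy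
        rw [if_neg]
        · rfl
        · rintro rfl
          exact hιrest (by rw [hrest]; exact List.mem_cons_of_mem _ hy)
  -- darts outside the big face
  have hφ1 : ∀ x, x ∉ R' → M'.φ x ∉ R' := fun x hx h => hx (face_mem' hfaceR h)
  have hq2 : ∀ x, x ∉ R' → q (M'.φ (M'.φ x)) = M.φ (M.φ (q x)) := fun x hx => by
    rw [hout _ (hφ1 x hx), hout x hx]
  have hoff : M'.Off3 {d | d ∈ R'} := by
    constructor
    · intro d hd
      exact face_mem hfaceR hd
    · intro d hd
      have hd' : d ∉ R' := hd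
      have hT := hMD.off.2 (q d) (fun h => hd' ((hRmem d).2 h))
      refine ⟨?_, ?_⟩
      · apply qinj
        rw [hout _ (hφ1 _ (hφ1 d hd')), hq2 d hd']
        exact hT.1
      · intro h
        have := congrArg q h
        rw [hout d hd'] at this
        exact hT.2 this
  have hlen : M'.LenOK (fun x => ℓ (q x)) {d | d ∈ R'} := by
    refine ⟨fun d => hMD.lenok.1 _, fun d => ?_, fun d hd => ?_⟩
    · change ℓ (q (M'.ι d)) = ℓ (q d)
      rw [hqι]; exact hMD.lenok.2.1 _
    · have hd' : d ∉ R' := hd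
      change ℓ (q (M'.φ d)) < ℓ (q d) + ℓ (q (M'.φ (M'.φ d)))
      rw [hq2 d hd', hout d hd']
      exact hMD.lenok.2.2 _ (fun h => hd' ((hRmem d).2 h))
  -- curvature
  have hkey : ∀ d, (∀ b ∈ R', ¬ M'.SameV d b) → ∀ b, M.SameV (q d) b → ∃ b', q b' = b := by
    intro d hd b hb
    rw [qrng]
    constructor
    · rintro rfl
      have h2 : M.SameV (q d) (M.φ o) :=
        M.sameV_trans hb (M.sameV_symm (M.sameV_step o))
      have h3 : M.φ o ∈ rest := by rw [hφo, hrest]; simp
      rw [← hR'] at h3
      obtain ⟨y, hy, hyx⟩ := List.mem_map.1 h3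
      rw [← hyx] at h2
      exact hd y hy ((hsame d y).2 h2)
    · rintro rfl
      exact (hqo d).2 (hcls _ (M.sameV_symm hb))
  have hth : ∀ x, x ∉ R' → M'.th (fun x => ℓ (q x)) x = M.th ℓ (q x) := by
    intro x hx
    change ang (ℓ (q x)) (ℓ (q (M'.φ (M'.φ x)))) (ℓ (q (M'.φ x))) = _
    rw [hout x hx, hq2 x hx]
    rfl
  have hnpc : ∀ d, (∀ b ∈ R', ¬ M'.SameV d b) →
      M'.curv (fun x => ℓ (q x)) {d | d ∈ R'} d ≤ 0 := by
    intro d hd
    have h1 : M'.curv (fun x => ℓ (q x)) {d | d ∈ R'} d = M.curv ℓ {d | d ∈ R} (q d) := by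
      unfold DMap.curv
      congr 1
      apply Fintype.sum_of_injective q qinj
      · intro x hx
        rw [if_neg]
        intro h
        obtain ⟨b', hb'⟩ := hkey d hd x h
        exact hx ⟨b', hb'⟩
      · intro x
        by_cases hx : M'.SameV d x
        · have hxR : x ∉ R' := fun h => hd x h hx
          have hxR2 : q x ∉ R := fun h => hxR ((hRmem x).2 h)
          rw [if_pos hx, if_pos ((hsame d x).1 hx)]
          unfold DMap.wt
          rw [if_neg (show x ∉ {d | d ∈ R'} from hxR), if_neg (show q x ∉ {d | d ∈ R} from hxR2),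
            hth x hxR]
        · rw [if_neg hx, if_neg (fun h => hx ((hsame d x).2 h))]
    rw [h1]
    apply hMD.npc
    intro b hb h
    obtain ⟨b', rfl⟩ := hkey d hd b h
    exact hd b' ((hRmem b').2 hb) ((hsame d b').2 h)
  have hplan : M'.Planar := hplanar hMD.planar
  refine ⟨D', fD', M'.toDMap, R', fun x => ℓ (q x), ⟨hplan, hfaceR, hoff, hlen, hnpc⟩, ?_, ?_, ?_⟩
  · -- area
    unfold DMap.area3
    apply Fintype.sum_of_injective q qinj
    · intro x hx
      rw [if_pos]
      by_contra hxR
      apply hx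
      obtain ⟨y, hy⟩ := (qrng x).2 ⟨fun h => hxR (h ▸ hιR), fun h => hxR (h ▸ hoR)⟩
      exact ⟨y, hy⟩
    · intro x
      by_cases hx : x ∈ R'
      · rw [if_pos hx, if_pos ((hRmem x).1 hx)]
      · rw [if_neg hx, if_neg (fun h => hx ((hRmem x).2 h))]
        change tarea (ℓ (q x)) (ℓ (q (M'.φ (M'.φ x)))) (ℓ (q (M'.φ x))) = _
        rw [hq2 x hx, hout x hx]
  · have e2 : (R.map ℓ).sum = ℓ (M.ι o) + (ℓ o + (rest.map ℓ).sum) := by
      rw [← (hrot.perm.map ℓ).sum_eq]
      simp
    rw [sum_map_congr, hR', e2]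
    have h2 := hMD.lenok.1 (M.ι o)
    have h3 := hMD.lenok.1 o
    linarith
  · apply Fintype.card_lt_of_injective_of_notMem q qinj (b := o)
    rintro ⟨x, hx⟩
    exact (hqo x).2 hx

end MSG.F64
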